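import Pool.Agent.H5.DPG.Stmts

/-!
# Row BYJ: a small closed region is a region of `Yj`
-/

set_option autoImplicit false

namespace Pool.DPG

open Pool.PG

/-- **BYJ** -/
theorem byj_thm (hATL : ATLStmt) (hFSB : FSBStmt) : BYJStmt := by
  intro g X j s B hX hB hBT
  obtain ⟨hBS, hBtr, σ, hσ⟩ := hB
  obtain ⟨-, hA⟩ := hATL g (!j) X (dif g X (Tj g X j s)) hX
  obtain ⟨-, hAS, ⟨α, ρ, hα1, hα2⟩, -, -⟩ := hA
  have hU : fs g (dif g X (Tj g X j s)) = fs g X \ fs g (Tj g X j s) := hFSB.2.1 g _ _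
  have hY : fs g (Yj g X j s) = fs g X \ fs g (att (!j) g X (dif g X (Tj g X j s))) := by
    unfold Yj
    exact hFSB.2.1 g _ _
  have hdis : ∀ n : ℕ, ∀ v, ρ v = n → v ∈ B →
      v ∉ fs g (att (!j) g X (dif g X (Tj g X j s))) := by
    intro n
    induction n using Nat.strong_induction_on with
    | _ n ih =>
      intro v hv hvB hvA
      have hvU : v ∉ fs g X ∩ fs g (dif g X (Tj g X j s)) := by
        intro h
        rw [hU] at h
        exact (Finset.mem_sdiff.1 (Finset.mem_inter.1 h).2).2 (hBT hvB)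
      by_cases ho : own g v = !j
      · obtain ⟨h1, h2, h3⟩ := hα1 v hvA hvU ho
        have hne : own g v ≠ j := by
          rw [ho]
          cases j <;> decide
        exact ih (ρ (α v)) (hv ▸ h3) (α v) rfl (hBtr v hvB hne (α v) (hAS h1) h2) h1
      · obtain ⟨h1, h2⟩ := hσ.mem v hvB
        obtain ⟨h3, h4⟩ := hα2 v hvA hvU ho (σ v) (hBS h1) h2
        exact ih (ρ (σ v)) (hv ▸ h4) (σ v) rfl h1 h3
  rw [hY]
  refine ⟨fun v hv => Finset.mem_sdiff.2 ⟨hBS hv, hdis _ v rfl hv⟩, ?_, σ, hσ⟩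
  intro v hv ho w hw hE
  exact hBtr v hv ho w (Finset.mem_sdiff.1 hw).1 hE

end Pool.DPG
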