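import Pool.Agent.H5.DPG.Stmts

/-!
# Row TOP: soundness of the algorithm
-/

set_option autoImplicit false

namespace Pool.DPG

open Pool.PG

/-- **TOP** -/
theorem top_thm (hRCS : RCSStmt) (hBRS : BRSStmt) (hFSB : FSBStmt) (hWIN : WINStmt) :
    TOPStmt := by
  intro c g hg hne
  have h1 : Snd g (lev c (bru c) g) := fun X hX hl =>
    hRCS c (bru c) g (hBRS c g) (g.length + 1) X hX hl
  obtain ⟨hl, hfs⟩ := hFSB.1 g (fun _ => true)
  have hfs' : fs g (msk g.length fun _ => true) = Finset.range g.length := by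
    rw [hfs]
    exact Finset.filter_true_of_mem fun _ _ => rfl
  have hsub : Sub g (msk g.length fun _ => true) := by
    refine ⟨hl, fun v hv => ?_⟩
    rw [hfs'] at hv ⊢
    obtain ⟨h2, h3⟩ := hg v (Finset.mem_range.1 hv)
    obtain ⟨w, hw⟩ := List.exists_mem_of_ne_nil _ h2
    exact ⟨w, Finset.mem_range.2 (h3 w hw), hw⟩
  obtain ⟨h4, σ, hs⟩ : Lab g (msk g.length fun _ => true) (sv c g) :=
    hRCS c (lev c (bru c)) g h1 (g.length + 1) _ hsub hne
  refine ⟨h4, fun v hv => ?_⟩
  rw [hfs'] at hs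
  have hsol : Sol g (fun v => (sv c g).getD v false) σ := by
    refine ⟨?_, ?_, ?_, ?_⟩
    · intro v hv
      exact (hs.mem v (Finset.mem_range.2 hv)).2
    · intro v hv
      exact hs.stay v (Finset.mem_range.2 hv)
    · intro v hv h2 w hw
      exact hs.trap v (Finset.mem_range.2 hv) h2 w (Finset.mem_range.2 ((hg v hv).2 w hw)) hw
    · intro v hv x hx h2
      have h3 : ∀ n, x n < g.length := by
        intro n
        induction n with
        | zero => rw [hx.1]; exact hv
        | succ n ih => exact (hg (x n) ih).2 _ (hx.2 n)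
      exact hs.won v (Finset.mem_range.2 hv) x hx.1
        (fun n => ⟨Finset.mem_range.2 (h3 n), hx.2 n⟩) h2
  exact (hWIN g _ σ hg hsol v hv _).2 rfl

end Pool.DPG
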